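import Mathlib
import Pool.Agent.Helper70.PQS.Defs
import Pool.Agent.Helper70.PQS.Final

set_option autoImplicit false

open Pool.Agent.Helper70.PQS

namespace Pool.Agent.Results.MP_a7b228_co.PQSBasis

/-- The basis of the class of PQS-sortable permutations is finite and consists of exactly 108
permutations, each of length at most 9. -/
theorem result :
    basis.Finite ∧ basis.ncard = 108 ∧ ∀ p ∈ basis, p.1 ≤ 9 := by
  refine ⟨?_, basis_ncard, basis_le⟩
  apply Set.finite_of_ncard_ne_zero
  rw [basis_ncard]
  norm_num

end Pool.Agent.Results.MP_a7b228_co.PQSBasis
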